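import Mathlib

set_option autoImplicit false

/-!
For every infinite cardinal `κ` there is a `κ`-octahedral Banach space without a subspace
isomorphic to `ℓ₁(κ⁺)`: the `ℓ₁`-sum of the spaces `ℓ_{p(n)}(κ⁺)`, `n ∈ ℕ`, where
`p(n) = 1 + 1 / (n + 1)`.
-/

open Filter Topology Set
open scoped ENNReal Cardinal

namespace Pool.Agent.Results.MP_814c9d_an.OctahedralNoL1

universe u

/-! ### Definitions -/

/-- `X` is `κ`-octahedral: for every `ε > 0` and every subspace `Y` with density character at most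
`κ` (i.e., `Y` has a dense subset `S` of cardinality at most `κ`) there is `x` in the unit sphere
with `‖λ x + y‖ ≥ (1 - ε) (|λ| + ‖y‖)` for all real `λ` and all `y ∈ Y`. -/
def IsOctahedral (κ : Cardinal.{u}) (X : Type u) [NormedAddCommGroup X] [NormedSpace ℝ X] : Prop :=
  ∀ ε : ℝ, 0 < ε → ∀ Y : Submodule ℝ X,
    (∃ S : Set X, S ⊆ Y ∧ (Y : Set X) ⊆ closure S ∧ #S ≤ κ) →
    ∃ x : X, ‖x‖ = 1 ∧ ∀ (l : ℝ), ∀ y ∈ Y, (1 - ε) * (|l| + ‖y‖) ≤ ‖l • x + y‖

/-- `X` contains an isomorphic copy of `ℓ₁(Γ)`: there is a bounded linear map `T : ℓ₁(Γ) → X` which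
is bounded below. -/
def ContainsL1 (Γ : Type u) (X : Type u) [NormedAddCommGroup X] [NormedSpace ℝ X] : Prop :=
  ∃ T : lp (fun _ : Γ => ℝ) 1 →L[ℝ] X, ∃ c : ℝ, 0 < c ∧ ∀ ξ, c * ‖ξ‖ ≤ ‖T ξ‖

/-! ### The exponents -/

/-- the real exponents -/
noncomputable def pr (n : ℕ) : ℝ := 1 + 1 / (n + 1)

lemma one_lt_pr (n : ℕ) : 1 < pr n := by
  unfold pr
  have : (0 : ℝ) < 1 / (n + 1) := by positivity
  linarith

lemma pr_le_two (n : ℕ) : pr n ≤ 2 := by
  unfold pr
  have : (1 : ℝ) / (n + 1) ≤ 1 := by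
    rw [div_le_one (by positivity)]
    have : (0 : ℝ) ≤ n := Nat.cast_nonneg n
    linarith
  linarith

/-- the exponents -/
noncomputable def p (n : ℕ) : ℝ≥0∞ := ENNReal.ofReal (pr n)

lemma p_toReal (n : ℕ) : (p n).toReal = pr n :=
  ENNReal.toReal_ofReal (zero_le_one.trans (one_lt_pr n).le)

instance (n : ℕ) : Fact (1 ≤ p n) := ⟨by
  unfold p
  rw [← ENNReal.ofReal_one]
  exact ENNReal.ofReal_le_ofReal (one_lt_pr n).le⟩

lemma p_pos (n : ℕ) : 0 < (p n).toReal := by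
  rw [p_toReal]; exact zero_lt_one.trans (one_lt_pr n)

lemma p_ne_zero (n : ℕ) : p n ≠ 0 := by
  have := (inferInstance : Fact (1 ≤ p n)).out
  intro h
  rw [h] at this
  exact absurd this (by simp)

/-! ### Norms of sums with a disjoint unit vector -/

open Classical in
lemma norm_add_single {Γ : Type u} {q : ℝ≥0∞} [Fact (1 ≤ q)] (hq : 0 < q.toReal)
    (y : lp (fun _ : Γ => ℝ) q) (γ : Γ) (hy : y γ = 0) (s : ℝ) :
    ‖s • lp.single q γ (1 : ℝ) + y‖ ^ q.toReal = |s| ^ q.toReal + ‖y‖ ^ q.toReal := by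
  have h1 := lp.hasSum_norm hq y
  have h2 := lp.hasSum_norm hq (s • lp.single q γ (1 : ℝ) + y)
  have h3 : HasSum (fun β : Γ => if β = γ then |s| ^ q.toReal else 0) (|s| ^ q.toReal) :=
    hasSum_ite_eq γ _
  refine h2.unique ((h3.add h1).congr_fun ?_)
  intro β
  rw [lp.coeFn_add, lp.coeFn_smul]
  simp only [Pi.add_apply, Pi.smul_apply]
  by_cases h : β = γ
  · subst h
    rw [lp.single_apply_self, hy]
    simp [Real.zero_rpow hq.ne']
  · rw [lp.single_apply_ne _ _ _ h]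
    simp [h]

/-! ### The two-point inequality -/

lemma two_point {q : ℝ} (h1 : 1 ≤ q) (h2 : q ≤ 2) (a b : ℝ) :
    |a + b| ^ q + |a - b| ^ q ≤ 2 * (|a| ^ q + |b| ^ q) := by
  have hq0 : 0 ≤ q / 2 := by linarith
  have hq1 : q / 2 ≤ 1 := by linarith
  have key : ∀ x : ℝ, |x| ^ q = (x ^ 2) ^ (q / 2) := by
    intro x
    rw [← sq_abs, ← Real.rpow_natCast, ← Real.rpow_mul (abs_nonneg _)]
    congr 1
    push_cast
    ring
  rw [key, key, key, key]
  have hc : (1 / 2 : ℝ) • ((a + b) ^ 2) ^ (q / 2) + (1 / 2 : ℝ) • ((a - b) ^ 2) ^ (q / 2) ≤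
      ((1 / 2 : ℝ) • (a + b) ^ 2 + (1 / 2 : ℝ) • (a - b) ^ 2) ^ (q / 2) :=
    (Real.concaveOn_rpow hq0 hq1).2 (by simp only [mem_Ici]; positivity)
      (by simp only [mem_Ici]; positivity) (by norm_num) (by norm_num) (by norm_num)
  simp only [smul_eq_mul] at hc
  have e1 : 1 / 2 * (a + b) ^ 2 + 1 / 2 * (a - b) ^ 2 = a ^ 2 + b ^ 2 := by ring
  rw [e1] at hc
  have e2 : (a ^ 2 + b ^ 2) ^ (q / 2) ≤ (a ^ 2) ^ (q / 2) + (b ^ 2) ^ (q / 2) :=
    Real.rpow_add_le_add_rpow (by positivity) (by positivity) hq0 hq1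
  linarith

lemma rpow_add_le' {q : ℝ} (h1 : 1 ≤ q) {a b : ℝ} (ha : 0 ≤ a) (hb : 0 ≤ b) :
    (a + b) ^ q ≤ 2 ^ (q - 1) * (a ^ q + b ^ q) := by
  have := NNReal.rpow_add_le_mul_rpow_add_rpow ⟨a, ha⟩ ⟨b, hb⟩ h1
  exact_mod_cast this

lemma two_point_lp {Γ : Type u} {q : ℝ≥0∞} [Fact (1 ≤ q)] (h1 : 1 ≤ q.toReal)
    (h2 : q.toReal ≤ 2) (a b : lp (fun _ : Γ => ℝ) q) :
    ‖a + b‖ ^ q.toReal + ‖a - b‖ ^ q.toReal ≤ 2 * (‖a‖ ^ q.toReal + ‖b‖ ^ q.toReal) := by
  have hq : 0 < q.toReal := by linarith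
  have s1 := (lp.hasSum_norm hq (a + b)).add (lp.hasSum_norm hq (a - b))
  have s2 := ((lp.hasSum_norm hq a).add (lp.hasSum_norm hq b)).mul_left 2
  refine hasSum_le (fun γ => ?_) s1 s2
  rw [lp.coeFn_add, lp.coeFn_sub]
  exact two_point h1 h2 (a γ) (b γ)

/-! ### The space -/

/-- the `ℓ₁`-sum of the spaces `ℓ_{p n}(Γ)` -/
abbrev Sp (Γ : Type u) : Type u := lp (fun n : ℕ => lp (fun _ : Γ => ℝ) (p n)) 1

lemma hasSum_norm1 {Γ : Type u} (x : Sp Γ) : HasSum (fun n => ‖x n‖) ‖x‖ := by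
  have := lp.hasSum_norm (p := 1) (by simp) x
  simpa using this

section octa

variable {Γ : Type u}

lemma countable_supp (x : Sp Γ) : (⋃ n : ℕ, {γ : Γ | x n γ ≠ 0}).Countable := by
  refine countable_iUnion fun n => ?_
  have hs := (lp.hasSum_norm (p_pos n) (x n)).summable.countable_support
  refine hs.mono fun γ hγ => ?_
  simp only [Function.mem_support, ne_eq]
  have : 0 < ‖x n γ‖ := norm_pos_iff.mpr hγ
  positivity

lemma continuous_coord (n : ℕ) (γ : Γ) : Continuous fun x : Sp Γ => x n γ := by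
  have h1 : Continuous fun x : Sp Γ => x n := by
    refine (LipschitzWith.of_dist_le_mul (K := 1) fun x y => ?_).continuous
    rw [dist_eq_norm, dist_eq_norm, NNReal.coe_one, one_mul]
    have := lp.norm_apply_le_norm (p := 1) one_ne_zero (x - y) n
    rwa [lp.coeFn_sub] at this
  have h2 : Continuous fun x : lp (fun _ : Γ => ℝ) (p n) => x γ := by
    refine (LipschitzWith.of_dist_le_mul (K := 1) fun x y => ?_).continuous
    rw [dist_eq_norm, dist_eq_norm, NNReal.coe_one, one_mul]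
    have := lp.norm_apply_le_norm (p_ne_zero n) (x - y) γ
    rwa [lp.coeFn_sub] at this
  exact h2.comp h1

lemma exists_coord (κ : Cardinal.{u}) (hκ : ℵ₀ ≤ κ) (hΓ : κ < #Γ) (Y : Submodule ℝ (Sp Γ))
    (hY : ∃ S : Set (Sp Γ), S ⊆ Y ∧ (Y : Set (Sp Γ)) ⊆ closure S ∧ #S ≤ κ) :
    ∃ γ : Γ, ∀ y ∈ Y, ∀ n, y n γ = 0 := by
  obtain ⟨S, -, hS2, hS3⟩ := hY
  have hcard : #(⋃ x ∈ S, ⋃ n : ℕ, {γ : Γ | x n γ ≠ 0} : Set Γ) ≤ κ := by
    refine (Cardinal.mk_biUnion_le _ S).trans ?_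
    calc #S * ⨆ x : S, #(⋃ n : ℕ, {γ : Γ | (x : Sp Γ) n γ ≠ 0} : Set Γ) ≤ κ * ℵ₀ := by
          refine mul_le_mul' hS3 ?_
          refine ciSup_le' fun x => ?_
          exact Cardinal.mk_le_aleph0_iff.mpr (countable_supp (x : Sp Γ)).to_subtype
      _ = κ := Cardinal.mul_aleph0_eq hκ
  obtain ⟨γ, hγ⟩ : ∃ γ : Γ, γ ∉ (⋃ x ∈ S, ⋃ n : ℕ, {γ : Γ | x n γ ≠ 0} : Set Γ) := by
    by_contra hcon
    push Not at hcon
    have : (⋃ x ∈ S, ⋃ n : ℕ, {γ : Γ | x n γ ≠ 0} : Set Γ) = univ := eq_univ_of_forall hcon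
    rw [this, Cardinal.mk_univ] at hcard
    exact absurd hcard (not_le.mpr hΓ)
  refine ⟨γ, fun y hy n => ?_⟩
  have hclosed : IsClosed {x : Sp Γ | x n γ = 0} :=
    isClosed_eq (continuous_coord n γ) continuous_const
  have hsub : S ⊆ {x : Sp Γ | x n γ = 0} := by
    intro x hx
    by_contra hne
    exact hγ (mem_biUnion hx (mem_iUnion.mpr ⟨n, hne⟩))
  exact closure_minimal hsub hclosed (hS2 hy)

open Classical in
lemma octa (κ : Cardinal.{u}) (hκ : ℵ₀ ≤ κ) (hΓ : κ < #Γ) : IsOctahedral κ (Sp Γ) := by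
  intro ε hε Y hY
  obtain ⟨γ, hγ⟩ := exists_coord κ hκ hΓ Y hY
  obtain ⟨n, hn⟩ : ∃ n : ℕ, 1 - ε ≤ (2 : ℝ) ^ (1 - pr n) := by
    have h1 : Tendsto (fun n : ℕ => (2 : ℝ) ^ (1 - pr n)) atTop (𝓝 1) := by
      have h2 : Tendsto (fun n : ℕ => 1 - pr n) atTop (𝓝 0) := by
        have h3 : (fun n : ℕ => 1 - pr n) = fun n : ℕ => -(1 / ((n : ℝ) + 1)) := by
          funext n; unfold pr; ring
        rw [h3, ← neg_zero]
        exact tendsto_one_div_add_atTop_nhds_zero_nat.neg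
      have h4 := (continuous_const.rpow continuous_id fun _ => Or.inl (by norm_num) :
        Continuous fun x : ℝ => (2 : ℝ) ^ x).tendsto 0
      rw [Real.rpow_zero] at h4
      exact h4.comp h2
    have := h1.eventually_const_lt (show 1 - ε < 1 by linarith)
    obtain ⟨n, hn⟩ := this.exists
    exact ⟨n, hn.le⟩
  refine ⟨lp.single 1 n (lp.single (p n) γ (1 : ℝ)), ?_, ?_⟩
  · rw [lp.norm_single (by norm_num), lp.norm_single
      (pos_iff_ne_zero.mpr (p_ne_zero n))]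
    simp
  intro l y hy
  by_cases hε1 : 1 ≤ ε
  · have h1 : (1 - ε) * (|l| + ‖y‖) ≤ 0 :=
      mul_nonpos_of_nonpos_of_nonneg (by linarith) (by positivity)
    exact h1.trans (norm_nonneg _)
  rw [not_le] at hε1
  -- the estimate in the `n`-th summand
  have hcoord : (1 - ε) * (|l| + ‖y n‖) ≤ ‖l • lp.single (p n) γ (1 : ℝ) + y n‖ := by
    have e1 := norm_add_single (p_pos n) (y n) γ (hγ y hy n) l
    rw [p_toReal] at e1
    have hpr := (one_lt_pr n).le
    have e2 : (|l| + ‖y n‖) ^ pr n ≤ 2 ^ (pr n - 1) * (|l| ^ pr n + ‖y n‖ ^ pr n) :=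
      rpow_add_le' hpr (abs_nonneg _) (norm_nonneg _)
    have e3 : ((1 - ε) * (|l| + ‖y n‖)) ^ pr n ≤ ‖l • lp.single (p n) γ (1 : ℝ) + y n‖ ^ pr n := by
      rw [e1, Real.mul_rpow (by linarith) (by positivity)]
      have e4 : (1 - ε) ^ pr n ≤ (2 : ℝ) ^ (1 - pr n) := by
        refine le_trans ?_ hn
        calc (1 - ε) ^ pr n ≤ (1 - ε) ^ (1 : ℝ) :=
              Real.rpow_le_rpow_of_exponent_ge (by linarith) (by linarith) hpr
          _ = 1 - ε := Real.rpow_one _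
      calc (1 - ε) ^ pr n * (|l| + ‖y n‖) ^ pr n
          ≤ (2 : ℝ) ^ (1 - pr n) * (2 ^ (pr n - 1) * (|l| ^ pr n + ‖y n‖ ^ pr n)) :=
            mul_le_mul e4 e2 (by positivity) (by positivity)
        _ = |l| ^ pr n + ‖y n‖ ^ pr n := by
            rw [← mul_assoc, ← Real.rpow_add (by norm_num)]
            have : 1 - pr n + (pr n - 1) = 0 := by ring
            rw [this, Real.rpow_zero, one_mul]
    exact (Real.rpow_le_rpow_iff (mul_nonneg (by linarith) (by positivity)) (norm_nonneg _)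
      (by linarith)).mp e3
  -- summation
  have s1 := hasSum_norm1 (l • lp.single 1 n (lp.single (p n) γ (1 : ℝ)) + y)
  have s2 : HasSum (fun m : ℕ => (1 - ε) * ((if m = n then |l| else 0) + ‖y m‖))
      ((1 - ε) * (|l| + ‖y‖)) :=
    ((hasSum_ite_eq n |l|).add (hasSum_norm1 y)).mul_left _
  refine hasSum_le (fun m => ?_) s2 s1
  rw [lp.coeFn_add, lp.coeFn_smul]
  simp only [Pi.add_apply, Pi.smul_apply]
  by_cases h : m = n
  · subst h
    rw [lp.single_apply_self]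
    simpa using hcoord
  · rw [lp.single_apply_ne _ _ _ h]
    simp only [h, if_false, zero_add, smul_zero]
    have := norm_nonneg (y m)
    nlinarith

end octa

section noL1

variable {Γ Δ : Type u}

/-- the `ℓ₁`-norm of the coordinates from `M` on -/
noncomputable def tail (M : ℕ) (x : Sp Γ) : ℝ := ∑' m, ‖x (m + M)‖

lemma summable_tail (M : ℕ) (x : Sp Γ) : Summable fun m => ‖x (m + M)‖ :=
  (summable_nat_add_iff M).mpr (hasSum_norm1 x).summable

lemma norm_eq_head_add_tail (M : ℕ) (x : Sp Γ) :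
    ‖x‖ = ∑ m ∈ Finset.range M, ‖x m‖ + tail M x := by
  rw [← (hasSum_norm1 x).tsum_eq]
  exact ((hasSum_norm1 x).summable.sum_add_tsum_nat_add M).symm

lemma tail_add_le (M : ℕ) (x y : Sp Γ) : tail M (x + y) ≤ tail M x + tail M y := by
  unfold tail
  rw [← (summable_tail M x).tsum_add (summable_tail M y)]
  refine (summable_tail M (x + y)).tsum_le_tsum (fun m => ?_)
    ((summable_tail M x).add (summable_tail M y))
  rw [lp.coeFn_add]
  exact norm_add_le _ _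

lemma tail_neg (M : ℕ) (x : Sp Γ) : tail M (-x) = tail M x := by
  unfold tail
  refine tsum_congr fun m => ?_
  rw [lp.coeFn_neg]
  exact norm_neg _

lemma tendsto_tail (x : Sp Γ) : Tendsto (fun M => tail M x) atTop (𝓝 0) :=
  tendsto_sum_nat_add fun m => ‖x m‖

/-- the modular of the first `M` coordinates -/
noncomputable def head (M : ℕ) (x : Sp Γ) : ℝ := ∑ m ∈ Finset.range M, ‖x m‖ ^ pr m

lemma head_two_point (M : ℕ) (x y : Sp Γ) :
    head M (x + y) + head M (x - y) ≤ 2 * (head M x + head M y) := by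
  unfold head
  rw [← Finset.sum_add_distrib, ← Finset.sum_add_distrib, Finset.mul_sum]
  refine Finset.sum_le_sum fun m _ => ?_
  rw [lp.coeFn_add, lp.coeFn_sub]
  have := two_point_lp (by rw [p_toReal]; exact (one_lt_pr m).le)
    (by rw [p_toReal]; exact pr_le_two m) (x m) (y m)
  rwa [p_toReal] at this

/-- the space `ℓ₁(Γ)` -/
abbrev L1 (Γ : Type u) : Type u := lp (fun _ : Γ => ℝ) 1

open Classical in
/-- the unit vectors -/
noncomputable def e (α : Γ) : L1 Γ := lp.single 1 α (1 : ℝ)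

open Classical in
lemma e_ne {α β : Γ} (h : β ≠ α) : e α β = 0 := by
  unfold e
  exact lp.single_apply_ne _ _ _ h

open Classical in
lemma norm_e (α : Γ) : ‖e α‖ = 1 := by
  unfold e
  rw [lp.norm_single (by norm_num)]
  simp

lemma coe_add_L1 (x y : L1 Γ) (β : Γ) : (x + y) β = x β + y β := rfl

lemma coe_smul_L1 (s : ℝ) (y : L1 Γ) (β : Γ) : (s • y) β = s * y β := rfl

lemma norm_smul_e_add (α : Γ) (ξ : L1 Γ) (hξ : ξ α = 0) (s : ℝ) : ‖s • e α + ξ‖ = |s| + ‖ξ‖ := by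
  have := norm_add_single (q := 1) (by simp) ξ α hξ s
  simp only [ENNReal.toReal_one, Real.rpow_one] at this
  unfold e
  exact this

lemma tail_smul_sign (M : ℕ) (x : Sp Γ) {s : ℝ} (hs : |s| = 1) : tail M (s • x) = tail M x := by
  rcases eq_or_eq_neg_of_abs_eq hs with h | h
  · rw [h, one_smul]
  · rw [h, neg_one_smul, tail_neg]

lemma head_zero (M : ℕ) : head M (0 : Sp Γ) = 0 := by
  refine Finset.sum_eq_zero fun m _ => ?_
  rw [lp.coeFn_zero, Pi.zero_apply, norm_zero]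
  exact Real.zero_rpow (zero_lt_one.trans (one_lt_pr m)).ne'

lemma tail_zero (M : ℕ) : tail M (0 : Sp Γ) = 0 := by
  unfold tail
  simp

open Classical in
lemma exists_signs (T : L1 Γ →L[ℝ] Sp Δ) (M : ℕ) (K t : ℝ) (F : Finset Γ)
    (h1 : ∀ α ∈ F, head M (T (e α)) ≤ K) (h2 : ∀ α ∈ F, tail M (T (e α)) ≤ t) :
    ∃ ξ : L1 Γ, ‖ξ‖ = F.card ∧ (∀ β ∉ F, ξ β = 0) ∧
      head M (T ξ) ≤ F.card * K ∧ tail M (T ξ) ≤ F.card * t := by
  induction F using Finset.induction_on with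
  | empty =>
    refine ⟨0, by simp, fun β _ => rfl, ?_, ?_⟩
    · rw [map_zero, head_zero]; simp
    · rw [map_zero, tail_zero]; simp
  | insert α F hα ih =>
    obtain ⟨ξ, hξ1, hξ2, hξ3, hξ4⟩ := ih (fun β hβ => h1 β (Finset.mem_insert_of_mem hβ))
      (fun β hβ => h2 β (Finset.mem_insert_of_mem hβ))
    have hα1 := h1 α (Finset.mem_insert_self α F)
    have hα2 := h2 α (Finset.mem_insert_self α F)
    have hcard : ((insert α F).card : ℝ) = F.card + 1 := by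
      rw [Finset.card_insert_of_notMem hα]; push_cast; ring
    -- the choice of the sign
    obtain ⟨s, hs, hhead⟩ : ∃ s : ℝ, |s| = 1 ∧
        head M (s • T (e α) + T ξ) ≤ (F.card + 1) * K := by
      have hh := head_two_point M (T ξ) (T (e α))
      by_cases hc : head M (T ξ + T (e α)) ≤ (F.card + 1) * K
      · refine ⟨1, by simp, ?_⟩
        rw [one_smul, add_comm]
        exact hc
      · refine ⟨-1, by simp, ?_⟩
        rw [neg_one_smul, neg_add_eq_sub]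
        rw [not_le] at hc
        linarith
    refine ⟨s • e α + ξ, ?_, ?_, ?_, ?_⟩
    · rw [norm_smul_e_add α ξ (hξ2 α hα), hs, hξ1, hcard]; ring
    · intro β hβ
      rw [Finset.mem_insert, not_or] at hβ
      rw [coe_add_L1, coe_smul_L1, e_ne hβ.1, hξ2 β hβ.2]
      simp
    · rw [map_add, map_smul, hcard]
      exact hhead
    · rw [map_add, map_smul, hcard]
      refine (tail_add_le M _ _).trans ?_
      rw [tail_smul_sign M _ hs]
      linarith

lemma head_le (T : L1 Γ →L[ℝ] Sp Δ) (M : ℕ) (α : Γ) :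
    head M (T (e α)) ≤ ∑ m ∈ Finset.range M, ‖T‖ ^ pr m := by
  refine Finset.sum_le_sum fun m _ => ?_
  refine Real.rpow_le_rpow (norm_nonneg _) ?_ (zero_lt_one.trans (one_lt_pr m)).le
  refine (lp.norm_apply_le_norm (p := 1) one_ne_zero (T (e α)) m).trans ?_
  refine (T.le_opNorm _).trans ?_
  rw [norm_e, mul_one]

lemma norm_apply_le_of_head (M : ℕ) (x : Sp Γ) {a : ℝ} (h : head M x ≤ a) {m : ℕ}
    (hm : m ∈ Finset.range M) : ‖x m‖ ≤ a ^ (1 / pr m) := by
  have hp : 0 < pr m := zero_lt_one.trans (one_lt_pr m)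
  have h1 : ‖x m‖ ^ pr m ≤ a := by
    refine le_trans ?_ h
    exact Finset.single_le_sum (f := fun m => ‖x m‖ ^ pr m) (fun i _ => by positivity) hm
  have h2 : (‖x m‖ ^ pr m) ^ (1 / pr m) ≤ a ^ (1 / pr m) :=
    Real.rpow_le_rpow (by positivity) h1 (by positivity)
  rwa [← Real.rpow_mul (norm_nonneg _), mul_one_div_cancel hp.ne', Real.rpow_one] at h2

/-- sublinear growth -/
lemma tendsto_sum_rpow (M : ℕ) (K : ℝ) (hK : 0 ≤ K) :
    Tendsto (fun N : ℕ => ((N : ℝ) + 1)⁻¹ *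
      ∑ m ∈ Finset.range M, (((N : ℝ) + 1) * K) ^ (1 / pr m)) atTop (𝓝 0) := by
  have h : ∀ m, Tendsto (fun N : ℕ => ((N : ℝ) + 1)⁻¹ * (((N : ℝ) + 1) * K) ^ (1 / pr m))
      atTop (𝓝 0) := by
    intro m
    have hp := one_lt_pr m
    have e1 : (fun N : ℕ => ((N : ℝ) + 1)⁻¹ * (((N : ℝ) + 1) * K) ^ (1 / pr m)) =
        fun N : ℕ => ((N : ℝ) + 1) ^ (-(1 - 1 / pr m)) * K ^ (1 / pr m) := by
      funext N
      have hN : (0 : ℝ) < (N : ℝ) + 1 := by positivity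
      rw [Real.mul_rpow hN.le hK, ← mul_assoc]
      congr 1
      rw [← Real.rpow_neg_one, ← Real.rpow_add hN]
      congr 1
      ring
    rw [e1]
    have h1 : Tendsto (fun N : ℕ => (N : ℝ) + 1) atTop atTop :=
      tendsto_atTop_add_const_right _ _ tendsto_natCast_atTop_atTop
    have hpos : 0 < 1 - 1 / pr m := by
      rw [sub_pos, div_lt_one (by linarith)]
      exact hp
    have h2 := (tendsto_rpow_neg_atTop hpos).comp h1
    have h3 := h2.mul_const (K ^ (1 / pr m))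
    rw [zero_mul] at h3
    exact h3
  have := tendsto_finsetSum (Finset.range M) fun m _ => h m
  simp only [Finset.sum_const_zero] at this
  refine this.congr fun N => ?_
  rw [Finset.mul_sum]

lemma not_containsL1_aux (hΓ : ℵ₀ < #Γ) (T : L1 Γ →L[ℝ] Sp Δ) (c : ℝ) (hc : 0 < c)
    (hT : ∀ ξ, c * ‖ξ‖ ≤ ‖T ξ‖) : False := by
  -- a common tail index
  have hM : ∀ α : Γ, ∃ M : ℕ, tail M (T (e α)) < c / 4 := fun α =>
    ((tendsto_tail _).eventually_lt_const (by positivity)).exists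
  choose M hM using hM
  obtain ⟨M₀, hM₀⟩ : ∃ M₀ : ℕ, (M ⁻¹' {M₀}).Infinite := by
    by_contra hcon
    push Not at hcon
    have h1 : (⋃ m : ℕ, M ⁻¹' {m}).Countable := countable_iUnion fun m => (hcon m).countable
    have h2 : (⋃ m : ℕ, M ⁻¹' {m}) = univ := by
      ext α; simp
    rw [h2, Set.countable_univ_iff] at h1
    exact absurd (Cardinal.mk_le_aleph0_iff.mpr h1) (not_le.mpr hΓ)
  have hK : 0 ≤ ∑ m ∈ Finset.range M₀, ‖T‖ ^ pr m := Finset.sum_nonneg fun m _ => by positivity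
  set K : ℝ := ∑ m ∈ Finset.range M₀, ‖T‖ ^ pr m with hKdef
  have hlim := (tendsto_sum_rpow M₀ K hK).eventually_lt_const (show (0 : ℝ) < c / 2 by positivity)
  obtain ⟨N, hN⟩ := hlim.exists
  obtain ⟨F, hF1, hF2⟩ := hM₀.exists_subset_card_eq (N + 1)
  obtain ⟨ξ, hξ1, -, hξ3, hξ4⟩ := exists_signs T M₀ K (c / 4) F (fun α _ => head_le T M₀ α)
    (fun α hα => by
      have h1 : M α = M₀ := hF1 hα
      have h2 := hM α
      rw [h1] at h2
      exact h2.le)
  rw [hF2] at hξ1 hξ3 hξ4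
  push_cast at hξ1 hξ3 hξ4
  have h1 := hT ξ
  rw [hξ1, norm_eq_head_add_tail M₀] at h1
  have h2 : ∑ m ∈ Finset.range M₀, ‖T ξ m‖ ≤
      ∑ m ∈ Finset.range M₀, (((N : ℝ) + 1) * K) ^ (1 / pr m) :=
    Finset.sum_le_sum fun m hm => norm_apply_le_of_head M₀ _ hξ3 hm
  have hN0 : (0 : ℝ) < (N : ℝ) + 1 := by positivity
  rw [inv_mul_lt_iff₀ hN0] at hN
  nlinarith

lemma not_containsL1 (hΓ : ℵ₀ < #Γ) : ¬ ContainsL1 Γ (Sp Δ) := by
  rintro ⟨T, c, hc, hT⟩
  exact not_containsL1_aux hΓ T c hc hT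

end noL1

/-- **Theorem.** For every infinite cardinal `κ` there is a Banach space which is `κ`-octahedral but
contains no isomorphic copy of `ℓ₁(κ⁺)`. -/
theorem result (κ : Cardinal.{u}) (hκ : ℵ₀ ≤ κ) :
    ∃ (X : Type u) (_ : NormedAddCommGroup X) (_ : NormedSpace ℝ X), CompleteSpace X ∧
      IsOctahedral κ X ∧ ∀ Γ : Type u, #Γ = Order.succ κ → ¬ ContainsL1 Γ X := by
  obtain ⟨Δ, hΔ⟩ : ∃ Δ : Type u, #Δ = Order.succ κ := ⟨_, Cardinal.mk_out _⟩
  refine ⟨Sp Δ, inferInstance, inferInstance, inferInstance,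
    octa κ hκ (by rw [hΔ]; exact Order.lt_succ κ), fun Γ hΓ => ?_⟩
  exact not_containsL1 (by rw [hΓ]; exact hκ.trans_lt (Order.lt_succ κ))

end Pool.Agent.Results.MP_814c9d_an.OctahedralNoL1
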